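import Pool.Agent.W312.TP.Stm
import Pool.Agent.H673R2.TsTree

set_option autoImplicit false

namespace Pool.Agent.W32.TP

open Pool.Agent.W312.TP Pool.Agent.H673R2.Ts Pool.Agent.H255R3.STC

/-- the top of a path in a rooted tree -/
theorem top_path (h1 : PROJ) {N : ℕ} {H : SimpleGraph (Fin N)} (hH : H.IsTree) (ρ : Fin N)
    {a b : Fin N} (P : H.Path a b) :
    ∃ m ∈ P.1.support, ∀ x ∈ P.1.support, H.dist ρ m ≤ H.dist ρ x ∧
      (x ≠ m → ∃ y ∈ P.1.support, H.Adj x y ∧ H.dist ρ y + 1 = H.dist ρ x) := by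
  obtain ⟨i, hi, hall⟩ := h1 (Fin N) H hH P.1.getVert P.1.length
    (fun j hj => P.1.adj_getVert_succ hj)
    (fun j hj he => by
      have := P.2.getVert_injOn (by simp; omega) (by simpa using hj) he
      omega) ρ
  refine ⟨P.1.getVert i, P.1.getVert_mem_support i, ?_⟩
  intro x hx
  obtain ⟨j, rfl, hj⟩ := SimpleGraph.Walk.mem_support_iff_exists_getVert.mp hx
  rcases Nat.lt_trichotomy j i with hlt | heq | hgt
  · have e1 := (hall j hj).1 hlt.le
    refine ⟨by omega, fun _ => ⟨P.1.getVert (j + 1), P.1.getVert_mem_support _,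
      P.1.adj_getVert_succ (by omega), ?_⟩⟩
    have e2 := (hall (j + 1) (by omega)).1 (by omega)
    omega
  · subst heq
    exact ⟨le_refl _, fun h => absurd rfl h⟩
  · have e1 := (hall j hj).2 hgt.le
    refine ⟨by omega, fun _ => ⟨P.1.getVert (j - 1), P.1.getVert_mem_support _, ?_, ?_⟩⟩
    · have := P.1.adj_getVert_succ (i := j - 1) (by omega)
      rw [Nat.sub_add_cancel (by omega)] at this
      exact this.symm
    · have e2 := (hall (j - 1) (by omega)).2 (by omega)
      omega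

/-- the neighbour nearer to the root is unique -/
theorem near_unique {N : ℕ} {H : SimpleGraph (Fin N)} (hH : H.IsTree) (ρ : Fin N)
    {x y z : Fin N} (hy : H.Adj x y) (hz : H.Adj x z) (hy1 : H.dist ρ y + 1 = H.dist ρ x)
    (hz1 : H.dist ρ z + 1 = H.dist ρ x) : y = z := by
  by_contra hne
  have := dist_next hH hy.symm hz hne (by omega : H.dist ρ x = H.dist ρ y + 1)
  omega

/-- the top lies in the other set -/
theorem top_mem {N : ℕ} {H : SimpleGraph (Fin N)} (hH : H.IsTree) (ρ : Fin N)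
    {S S' : Fin N → Prop} {m m' : Fin N}
    (hS : ∀ x, S x → H.dist ρ m ≤ H.dist ρ x ∧
      (x ≠ m → ∃ y, S y ∧ H.Adj x y ∧ H.dist ρ y + 1 = H.dist ρ x))
    (hS' : ∀ x, S' x → H.dist ρ m' ≤ H.dist ρ x ∧
      (x ≠ m' → ∃ y, S' y ∧ H.Adj x y ∧ H.dist ρ y + 1 = H.dist ρ x))
    (hle : H.dist ρ m' ≤ H.dist ρ m) :
    ∀ d x, H.dist ρ x = d → S x → S' x → S' m := by
  intro d
  induction d with
  | zero =>
    intro x hd hx hx'
    by_cases hm : x = m
    · rw [← hm]; exact hx'
    · obtain ⟨y, _, _, h2⟩ := (hS x hx).2 hm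
      omega
  | succ d ih =>
    intro x hd hx hx'
    by_cases hm : x = m
    · rw [← hm]; exact hx'
    · obtain ⟨y, hy, hxy, h2⟩ := (hS x hx).2 hm
      by_cases hm' : x = m'
      · exfalso
        have := (hS y hy).1
        rw [← hm'] at hle
        omega
      · obtain ⟨z, hz, hxz, h3⟩ := (hS' x hx').2 hm'
        have hyz := near_unique hH ρ hxy hxz h2 h3
        subst hyz
        exact ih y (by omega) hy hz

open Fin.CommRing in
theorem proof_CHO (h1 : PROJ) : CHO := by
  intro n G hG k hk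
  refine ⟨fun f => ?_⟩
  obtain ⟨N, H, hH, a, b, P, hP⟩ := hG
  obtain ⟨k, rfl⟩ : ∃ k', k = k' + 4 := ⟨k - 4, by omega⟩
  have hN : Nonempty (Fin N) := ⟨a (f 0)⟩
  obtain ⟨ρ⟩ := hN
  choose m hm hmt using fun v => top_path h1 hH ρ (P v)
  obtain ⟨i, -, hi⟩ := Finset.exists_max_image (Finset.univ : Finset (Fin (k + 4)))
    (fun i => H.dist ρ (m (f i))) ⟨0, Finset.mem_univ _⟩
  have key : ∀ j : Fin (k + 4), (SimpleGraph.cycleGraph (k + 4)).Adj i j →
      m (f i) ∈ (P (f j)).1.support := by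
    intro j hij
    have hadj : G.Adj (f i) (f j) := f.map_rel_iff.mpr hij
    obtain ⟨x, hx1, hx2⟩ := (hP _ _ hadj.ne).mp hadj
    exact top_mem hH ρ (S := fun x => x ∈ (P (f i)).1.support) (S' := fun x => x ∈ (P (f j)).1.support)
      (hmt (f i)) (hmt (f j)) (hi j (Finset.mem_univ _)) _ x rfl hx1 hx2
  have a1 : (SimpleGraph.cycleGraph (k + 4)).Adj i (i + 1) := by
    rw [SimpleGraph.cycleGraph_adj]; right; ring
  have a2 : (SimpleGraph.cycleGraph (k + 4)).Adj i (i - 1) := by
    rw [SimpleGraph.cycleGraph_adj]; left; ring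
  have hne : f (i + 1) ≠ f (i - 1) := by
    intro he
    have h2 := f.injective he
    have h3 : (2 : Fin (k + 4)) = 0 := by
      have : (i + 1) - (i - 1) = 0 := by rw [h2]; ring
      rw [← this]; ring
    have h4 := congrArg Fin.val h3
    have h5 : (2 : ℕ) % (k + 4) = 0 := h4
    rw [Nat.mod_eq_of_lt (by omega)] at h5
    omega
  have hadj : G.Adj (f (i + 1)) (f (i - 1)) := (hP _ _ hne).mpr ⟨m (f i), key _ a1, key _ a2⟩
  have hc := f.map_rel_iff.mp hadj
  rw [SimpleGraph.cycleGraph_adj] at hc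
  rcases hc with hc | hc
  · have h3 : (1 : Fin (k + 4)) = 0 := by
      have : (i + 1) - (i - 1) - 1 = 0 := by rw [hc]; ring
      rw [← this]; ring
    have h4 := congrArg Fin.val h3
    simp at h4
  · have h3 : (3 : Fin (k + 4)) = 0 := by
      have : 1 - ((i - 1) - (i + 1)) = 0 := by rw [hc]; ring
      rw [← this]; ring
    have h4 := congrArg Fin.val h3
    have h5 : (3 : ℕ) % (k + 4) = 0 := h4
    rw [Nat.mod_eq_of_lt (by omega)] at h5
    omega

end Pool.Agent.W32.TP
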